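import Pool.Agent.H24.AG.Targets
import Pool.Agent.H24.Sqf.TypeII

/-! row VBL of `gap_modules`: bilinear blocks -/

set_option autoImplicit false

open Finset ArithmeticFunction
open scoped ArithmeticFunction.Moebius ArithmeticFunction.zeta

namespace Pool.Agent.H30.AG

open Pool.Agent.H24.AG Pool.Agent.H24.Sqf

/-- the sum of the reciprocals of the multiples of `g` -/
theorem sum_inv_mult (L g : ℕ) (hL : 1 ≤ L) (hg : 1 ≤ g) :
    ∑ a ∈ (Ioc 0 L).filter (fun a => g ∣ a), ((a : ℝ))⁻¹ ≤ (1 + Real.log L) / g := by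
  have h0 : (0 : ℝ) ≤ Real.log L := Real.log_nonneg (by exact_mod_cast hL)
  have hg' : (0 : ℝ) < g := by exact_mod_cast hg
  have h1 : ∑ a ∈ (Ioc 0 L).filter (fun a => g ∣ a), ((a : ℝ))⁻¹ =
      ∑ b ∈ Ioc 0 (L / g), ((g : ℝ) * b)⁻¹ := by
    symm
    refine Finset.sum_bij (fun b _ => g * b) ?_ ?_ ?_ ?_
    · intro b hb
      rw [mem_Ioc] at hb
      rw [mem_filter, mem_Ioc]
      refine ⟨⟨Nat.mul_pos hg hb.1, ?_⟩, dvd_mul_right _ _⟩
      calc g * b ≤ g * (L / g) := Nat.mul_le_mul_left _ hb.2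
        _ ≤ L := Nat.mul_div_le _ _
    · intro b _ b' _ h
      exact Nat.eq_of_mul_eq_mul_left hg h
    · intro a ha
      rw [mem_filter, mem_Ioc] at ha
      obtain ⟨⟨ha1, ha2⟩, c, rfl⟩ := ha
      refine ⟨c, ?_, rfl⟩
      rw [mem_Ioc]
      refine ⟨Nat.pos_of_ne_zero (by rintro rfl; simp at ha1), ?_⟩
      rw [Nat.le_div_iff_mul_le hg]
      rwa [mul_comm]
    · intro b _
      push_cast
      rfl
  rw [h1]
  have h2 : ∑ b ∈ Ioc 0 (L / g), ((g : ℝ) * b)⁻¹ = (∑ b ∈ Ioc 0 (L / g), ((b : ℝ))⁻¹) / g := by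
    rw [Finset.sum_div]
    refine sum_congr rfl fun b _ => ?_
    rw [mul_inv, div_eq_mul_inv, mul_comm]
  rw [h2]
  refine div_le_div_of_nonneg_right ?_ hg'.le
  have h3 : ∑ b ∈ Ioc 0 (L / g), ((b : ℝ))⁻¹ ≤ ∑ b ∈ Ioc 0 L, ((b : ℝ))⁻¹ :=
    sum_le_sum_of_subset_of_nonneg (Ioc_subset_Ioc_right (Nat.div_le_self _ _))
      (fun _ _ _ => by positivity)
  refine h3.trans ?_
  have h4 := harmonic_le_one_add_log L
  rw [harmonic_eq_sum_Icc] at h4
  push_cast at h4
  have h5 : Icc 1 L = Ioc 0 L := by ext; simp [Nat.succ_le_iff]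
  rw [h5] at h4
  exact h4

/-- the second moment of the divisor function -/
theorem sum_card_div_sq (L : ℕ) (hL : 1 ≤ L) :
    ∑ l ∈ Ioc 0 L, (#l.divisors : ℝ) ^ 2 ≤ L * (1 + Real.log L) ^ 3 := by
  classical
  have h0 : (0 : ℝ) ≤ Real.log L := Real.log_nonneg (by exact_mod_cast hL)
  set H : ℝ := 1 + Real.log L with hH
  have hH0 : 0 ≤ H := by positivity
  have h1 : ∀ l ∈ Ioc 0 L, (#l.divisors : ℝ) =
      ∑ a ∈ Ioc 0 L, if a ∣ l then (1 : ℝ) else 0 := by
    intro l hl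
    rw [mem_Ioc] at hl
    rw [← sum_filter, sum_const, nsmul_eq_mul, mul_one]
    congr 2
    ext a
    rw [Nat.mem_divisors, mem_filter, mem_Ioc]
    constructor
    · intro h
      exact ⟨⟨Nat.pos_of_dvd_of_pos h.1 hl.1, (Nat.le_of_dvd hl.1 h.1).trans hl.2⟩, h.1⟩
    · intro h
      exact ⟨h.2, by omega⟩
  have h2 : ∑ l ∈ Ioc 0 L, (#l.divisors : ℝ) ^ 2 =
      ∑ a ∈ Ioc 0 L, ∑ b ∈ Ioc 0 L, ∑ l ∈ Ioc 0 L,
        (if a ∣ l then (1 : ℝ) else 0) * (if b ∣ l then (1 : ℝ) else 0) := by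
    have : ∀ l ∈ Ioc 0 L, (#l.divisors : ℝ) ^ 2 = ∑ a ∈ Ioc 0 L, ∑ b ∈ Ioc 0 L,
        (if a ∣ l then (1 : ℝ) else 0) * (if b ∣ l then (1 : ℝ) else 0) := by
      intro l hl
      rw [sq, h1 l hl, sum_mul_sum]
    rw [sum_congr rfl this, sum_comm]
    refine sum_congr rfl fun a _ => ?_
    rw [sum_comm]
  have h3 : ∀ a ∈ Ioc 0 L, ∀ b ∈ Ioc 0 L, ∑ l ∈ Ioc 0 L,
      (if a ∣ l then (1 : ℝ) else 0) * (if b ∣ l then (1 : ℝ) else 0) ≤
      ∑ g ∈ Ioc 0 L, if g ∣ a ∧ g ∣ b then (L : ℝ) * g * ((a : ℝ)⁻¹ * (b : ℝ)⁻¹) else 0 := by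
    intro a ha b hb
    rw [mem_Ioc] at ha hb
    have ha' : (0 : ℝ) < a := by exact_mod_cast ha.1
    have hb' : (0 : ℝ) < b := by exact_mod_cast hb.1
    have e1 : ∑ l ∈ Ioc 0 L, (if a ∣ l then (1 : ℝ) else 0) * (if b ∣ l then (1 : ℝ) else 0) =
        (((Ioc 0 L).filter (fun l => Nat.lcm a b ∣ l)).card : ℝ) := by
      rw [← Finset.sum_boole]
      refine sum_congr rfl fun l _ => ?_
      by_cases hal : a ∣ l
      · by_cases hbl : b ∣ l
        · rw [if_pos hal, if_pos hbl, if_pos (Nat.lcm_dvd hal hbl), mul_one]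
        · rw [if_neg hbl, if_neg (fun h => hbl ((Nat.dvd_lcm_right a b).trans h)), mul_zero]
      · rw [if_neg hal, if_neg (fun h => hal ((Nat.dvd_lcm_left a b).trans h)), zero_mul]
    have e2 : (((Ioc 0 L).filter (fun l => Nat.lcm a b ∣ l)).card : ℝ) ≤ (L : ℝ) / Nat.lcm a b := by
      rw [Nat.Ioc_filter_dvd_card_eq_div]
      exact Nat.cast_div_le
    have hgpos : 0 < Nat.gcd a b := Nat.gcd_pos_of_pos_left _ ha.1
    have hg' : (0 : ℝ) < Nat.gcd a b := by exact_mod_cast hgpos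
    have e3 : (L : ℝ) / Nat.lcm a b = (L : ℝ) * (Nat.gcd a b) * ((a : ℝ)⁻¹ * (b : ℝ)⁻¹) := by
      have h := Nat.gcd_mul_lcm a b
      have h' : ((Nat.gcd a b : ℝ)) * (Nat.lcm a b) = a * b := by exact_mod_cast h
      have hl : (0 : ℝ) < Nat.lcm a b := by
        have := Nat.lcm_pos ha.1 hb.1
        exact_mod_cast this
      field_simp
      linarith
    rw [e1]
    refine e2.trans ?_
    rw [e3]
    have hmem : Nat.gcd a b ∈ Ioc 0 L := by
      rw [mem_Ioc]
      exact ⟨hgpos, (Nat.le_of_dvd ha.1 (Nat.gcd_dvd_left a b)).trans ha.2⟩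
    have := Finset.single_le_sum (f := fun g : ℕ => if g ∣ a ∧ g ∣ b then
      (L : ℝ) * g * ((a : ℝ)⁻¹ * (b : ℝ)⁻¹) else 0) (fun g _ => by
        split_ifs
        · positivity
        · exact le_rfl) hmem
    refine le_trans (le_of_eq ?_) this
    rw [if_pos ⟨Nat.gcd_dvd_left a b, Nat.gcd_dvd_right a b⟩]
  rw [h2]
  calc _ ≤ ∑ a ∈ Ioc 0 L, ∑ b ∈ Ioc 0 L, ∑ g ∈ Ioc 0 L,
        (if g ∣ a ∧ g ∣ b then (L : ℝ) * g * ((a : ℝ)⁻¹ * (b : ℝ)⁻¹) else 0) :=
        sum_le_sum fun a ha => sum_le_sum fun b hb => h3 a ha b hb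
    _ = ∑ g ∈ Ioc 0 L, (L : ℝ) * g * ((∑ a ∈ (Ioc 0 L).filter (fun a => g ∣ a), ((a : ℝ))⁻¹) *
          ∑ b ∈ (Ioc 0 L).filter (fun b => g ∣ b), ((b : ℝ))⁻¹) := by
        have : ∀ a ∈ Ioc 0 L, ∑ b ∈ Ioc 0 L, ∑ g ∈ Ioc 0 L,
            (if g ∣ a ∧ g ∣ b then (L : ℝ) * g * ((a : ℝ)⁻¹ * (b : ℝ)⁻¹) else 0) =
            ∑ g ∈ Ioc 0 L, ∑ b ∈ Ioc 0 L,
            (if g ∣ a ∧ g ∣ b then (L : ℝ) * g * ((a : ℝ)⁻¹ * (b : ℝ)⁻¹) else 0) :=
          fun a _ => sum_comm
        rw [sum_congr rfl this, sum_comm]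
        refine sum_congr rfl fun g _ => ?_
        rw [sum_mul_sum, mul_sum, sum_filter]
        refine sum_congr rfl fun a _ => ?_
        by_cases hga : g ∣ a
        · rw [if_pos hga, mul_sum, sum_filter]
          refine sum_congr rfl fun b _ => ?_
          by_cases hgb : g ∣ b
          · rw [if_pos ⟨hga, hgb⟩, if_pos hgb]
          · rw [if_neg (fun h => hgb h.2), if_neg hgb]
        · rw [if_neg hga]
          refine sum_eq_zero fun b _ => ?_
          rw [if_neg (fun h => hga h.1)]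
    _ ≤ ∑ g ∈ Ioc 0 L, (L : ℝ) * g * ((H / g) * (H / g)) := by
        refine sum_le_sum fun g hg => ?_
        rw [mem_Ioc] at hg
        have k1 := sum_inv_mult L g hL hg.1
        have k2 : (0 : ℝ) ≤ ∑ a ∈ (Ioc 0 L).filter (fun a => g ∣ a), ((a : ℝ))⁻¹ :=
          sum_nonneg fun _ _ => by positivity
        gcongr
    _ = (L : ℝ) * H ^ 2 * ∑ g ∈ Ioc 0 L, ((g : ℝ))⁻¹ := by
        rw [mul_sum]
        refine sum_congr rfl fun g hg => ?_
        rw [mem_Ioc] at hg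
        have : (0 : ℝ) < g := by exact_mod_cast hg.1
        field_simp
    _ ≤ (L : ℝ) * H ^ 2 * H := by
        have k := sum_inv_mult L 1 hL le_rfl
        rw [Nat.cast_one, div_one] at k
        have k' : (Ioc 0 L).filter (fun a => 1 ∣ a) = Ioc 0 L := by simp
        rw [k'] at k
        gcongr
    _ = _ := by ring

theorem ee_conj (x y : ℝ) : ee x * (starRingEnd ℂ) (ee y) = ee (x - y) := by
  unfold ee
  rw [← Complex.exp_conj, ← Complex.exp_add]
  congr 1
  simp only [map_mul, map_ofNat, Complex.conj_ofReal, Complex.conj_I]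
  push_cast
  ring

theorem norm_ee (x : ℝ) : ‖ee x‖ = 1 := by
  unfold ee
  have : (2 * Real.pi * Complex.I * (x : ℂ)) = ((2 * Real.pi * x : ℝ) : ℂ) * Complex.I := by
    push_cast; ring
  rw [this, Complex.norm_exp_ofReal_mul_I]

theorem mn_nonneg (M x : ℝ) (hM : 0 ≤ M) : 0 ≤ mn M x := by
  unfold mn
  split_ifs
  · exact hM
  · have : 0 ≤ dn x := abs_nonneg _
    positivity

theorem mn_zero (M : ℝ) : mn M 0 = M := by
  unfold mn dn
  rw [if_pos (by simp)]

/-- the sum over the differences -/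
theorem sum_diff_le (f : ℕ → ℝ) (hf : ∀ h, 0 ≤ f h) (L l : ℕ) (hl : l ∈ Ioc 0 L) :
    ∑ l' ∈ Ioc 0 L, f ((l - l') + (l' - l)) ≤ f 0 + 2 * ∑ h ∈ Ioc 0 L, f h := by
  rw [mem_Ioc] at hl
  have h1 : ∑ l' ∈ Ioc 0 L, f ((l - l') + (l' - l)) =
      ∑ l' ∈ Ioc 0 l, f ((l - l') + (l' - l)) + ∑ l' ∈ Ioc l L, f ((l - l') + (l' - l)) :=
    (Finset.sum_Ioc_consecutive _ (Nat.zero_le _) hl.2).symm
  have h2 : ∑ l' ∈ Ioc 0 l, f ((l - l') + (l' - l)) ≤ f 0 + ∑ h ∈ Ioc 0 L, f h := by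
    have e1 : ∑ l' ∈ Ioc 0 l, f ((l - l') + (l' - l)) = ∑ h ∈ range l, f h := by
      refine Finset.sum_bij (fun l' _ => l - l') ?_ ?_ ?_ ?_
      · intro a ha
        rw [mem_Ioc] at ha
        rw [mem_range]
        omega
      · intro a ha b hb h
        rw [mem_Ioc] at ha hb
        omega
      · intro b hb
        rw [mem_range] at hb
        refine ⟨l - b, ?_, by omega⟩
        rw [mem_Ioc]
        omega
      · intro a ha
        rw [mem_Ioc] at ha
        congr 1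
        omega
    rw [e1]
    have e2 : ∑ h ∈ insert 0 (Ioc 0 L), f h = f 0 + ∑ h ∈ Ioc 0 L, f h :=
      sum_insert (by simp)
    rw [← e2]
    refine sum_le_sum_of_subset_of_nonneg ?_ (fun _ _ _ => hf _)
    intro h hh
    rw [mem_range] at hh
    rw [mem_insert, mem_Ioc]
    omega
  have h3 : ∑ l' ∈ Ioc l L, f ((l - l') + (l' - l)) ≤ ∑ h ∈ Ioc 0 L, f h := by
    have e1 : ∑ l' ∈ Ioc l L, f ((l - l') + (l' - l)) = ∑ h ∈ Ioc 0 (L - l), f h := by
      refine Finset.sum_bij (fun l' _ => l' - l) ?_ ?_ ?_ ?_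
      · intro a ha
        rw [mem_Ioc] at ha
        rw [mem_Ioc]
        omega
      · intro a ha b hb h
        rw [mem_Ioc] at ha hb
        omega
      · intro b hb
        rw [mem_Ioc] at hb
        refine ⟨l + b, ?_, by omega⟩
        rw [mem_Ioc]
        omega
      · intro a ha
        rw [mem_Ioc] at ha
        congr 1
        omega
    rw [e1]
    refine sum_le_sum_of_subset_of_nonneg ?_ (fun _ _ _ => hf _)
    intro h hh
    rw [mem_Ioc] at hh ⊢
    omega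
  rw [h1]
  linarith

/-- symmetric quadratic sums -/
theorem quad_le (B : Finset ℕ) (β : ℕ → ℝ) (g : ℕ → ℕ → ℝ) (hg : ∀ l l', 0 ≤ g l l')
    (hs : ∀ l l', g l l' = g l' l) (E : ℝ) (hE : ∀ l ∈ B, ∑ l' ∈ B, g l l' ≤ E) :
    ∑ l ∈ B, ∑ l' ∈ B, |β l| * |β l'| * g l l' ≤ E * ∑ l ∈ B, |β l| ^ 2 := by
  have h1 : ∑ l ∈ B, ∑ l' ∈ B, |β l| * |β l'| * g l l' ≤
      ∑ l ∈ B, ∑ l' ∈ B, (|β l| ^ 2 * g l l' / 2 + |β l'| ^ 2 * g l' l / 2) := by
    refine sum_le_sum fun l _ => sum_le_sum fun l' _ => ?_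
    have h := hg l l'
    rw [hs l' l]
    nlinarith [sq_nonneg (|β l| - |β l'|), mul_nonneg (sq_nonneg (|β l| - |β l'|)) h]
  have h2 : ∑ l ∈ B, ∑ l' ∈ B, (|β l| ^ 2 * g l l' / 2 + |β l'| ^ 2 * g l' l / 2) =
      ∑ l ∈ B, ∑ l' ∈ B, |β l| ^ 2 * g l l' := by
    simp_rw [sum_add_distrib]
    rw [sum_comm (f := fun l l' => |β l'| ^ 2 * g l' l / 2), ← sum_add_distrib]
    refine sum_congr rfl fun l _ => ?_
    rw [← sum_add_distrib]
    refine sum_congr rfl fun l' _ => ?_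
    ring
  refine h1.trans (h2.le.trans ?_)
  rw [mul_sum]
  refine sum_le_sum fun l hl => ?_
  rw [← mul_sum, mul_comm]
  exact mul_le_mul_of_nonneg_right (hE l hl) (sq_nonneg _)

theorem pf_VBL (hg : T_VGE) (hs : T_VSP) : T_VBL := by
  classical
  obtain ⟨C, hC, hs⟩ := hs
  refine ⟨8 * (1 + 4 * C), by positivity, ?_⟩
  intro θ q a U M P R X hq ha hθ hU hM hMX hqX hPR hRX hX
  have hXr : (2 : ℝ) ≤ X := by exact_mod_cast hX
  have hX0 : (0 : ℝ) < X := by linarith
  have hMr : (1 : ℝ) ≤ M := by exact_mod_cast hM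
  have hqr : (1 : ℝ) ≤ q := by exact_mod_cast hq
  have hqXr : (q : ℝ) ≤ X := by exact_mod_cast hqX
  have hMXr : (M : ℝ) ≤ X := by exact_mod_cast hMX
  set ℓ : ℝ := Real.log (2 * X) with hℓ
  have hlog2 : (0.6931471803 : ℝ) < Real.log 2 := Real.log_two_gt_d9
  have hℓX : ℓ = Real.log 2 + Real.log X := by
    rw [hℓ, Real.log_mul (by norm_num) hX0.ne']
  have hlogX : Real.log 2 ≤ Real.log X := Real.log_le_log (by norm_num) hXr
  have hℓ1 : 1 ≤ ℓ := by linarith
  set L : ℕ := R / M with hLdef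
  set A := Ioc M (2 * M) with hA
  set B := Ioc 0 L with hB
  set K : ℕ → ℕ → ℂ := fun m l => if P < m * l ∧ m * l ≤ R then ee (θ * (m * l : ℕ)) else 0
    with hKdef
  have hinner : ∀ m ∈ A, ∑ l ∈ Ioc (P / m) (R / m), ((beta U l : ℝ) : ℂ) * ee (θ * (m * l : ℕ))
      = ∑ l ∈ B, ((beta U l : ℝ) : ℂ) * K m l := by
    intro m hm
    rw [hA, mem_Ioc] at hm
    have hmpos : 0 < m := by omega
    have : ∀ l ∈ B, ((beta U l : ℝ) : ℂ) * K m l
        = if l ∈ Ioc (P / m) (R / m) then ((beta U l : ℝ) : ℂ) * ee (θ * (m * l : ℕ))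
          else 0 := by
      intro l _
      have hiff : l ∈ Ioc (P / m) (R / m) ↔ (P < m * l ∧ m * l ≤ R) := by
        rw [mem_Ioc, Nat.div_lt_iff_lt_mul hmpos, Nat.le_div_iff_mul_le hmpos, mul_comm l m]
      simp only [hKdef]
      by_cases h : P < m * l ∧ m * l ≤ R
      · rw [if_pos h, if_pos (hiff.2 h)]
      · rw [if_neg h, if_neg (fun h' => h (hiff.1 h')), mul_zero]
    rw [sum_congr rfl this, ← sum_filter]
    apply sum_congr
    · ext l
      simp only [mem_filter, mem_Ioc, hB]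
      constructor
      · intro h
        refine ⟨⟨lt_of_le_of_lt (Nat.zero_le _) h.1, ?_⟩, h⟩
        calc l ≤ R / m := h.2
          _ ≤ R / M := Nat.div_le_div_left hm.1.le (by omega)
      · intro h
        exact h.2
    · intro _ _; rfl
  have h0 : ∑ m ∈ A, (((Λ - trunc U Λ) m : ℝ) : ℂ) *
      ∑ l ∈ Ioc (P / m) (R / m), ((beta U l : ℝ) : ℂ) * ee (θ * (m * l : ℕ))
      = ∑ m ∈ A, (((Λ - trunc U Λ) m : ℝ) : ℂ) * ∑ l ∈ B, ((beta U l : ℝ) : ℂ) * K m l := by
    apply sum_congr rfl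
    intro m hm
    rw [hinner m hm]
  rw [h0]
  refine (bilinear A B _ _ K).trans ?_
  have hα : ∑ m ∈ A, ((Λ - trunc U Λ) m) ^ 2 ≤ M * ℓ ^ 2 := by
    calc ∑ m ∈ A, ((Λ - trunc U Λ) m) ^ 2 ≤ ∑ m ∈ A, ℓ ^ 2 := by
          apply sum_le_sum
          intro m hm
          rw [hA, mem_Ioc] at hm
          have hsub : (Λ - trunc U Λ) m = Λ m - trunc U Λ m := rfl
          have h1 : 0 ≤ (Λ - trunc U Λ) m := by
            rw [hsub, trunc_apply]
            split_ifs
            · simp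
            · rw [sub_zero]; exact vonMangoldt_nonneg
          have h2 : (Λ - trunc U Λ) m ≤ ℓ := by
            have h3 : (Λ - trunc U Λ) m ≤ Λ m := by
              rw [hsub, trunc_apply]
              split_ifs
              · rw [sub_self]; exact vonMangoldt_nonneg
              · rw [sub_zero]
            calc (Λ - trunc U Λ) m ≤ Λ m := h3
              _ ≤ Real.log m := vonMangoldt_le_log
              _ ≤ Real.log (2 * X) := by
                  apply Real.log_le_log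
                  · have : 0 < m := by omega
                    exact_mod_cast this
                  · have : m ≤ 2 * X := by omega
                    exact_mod_cast this
          gcongr
      _ = M * ℓ ^ 2 := by
          rw [sum_const, nsmul_eq_mul, hA, Nat.card_Ioc]
          congr 2
          omega
  have hKK : ∀ l l', ∑ m ∈ A, K m l * (starRingEnd ℂ) (K m l')
      = ∑ m ∈ A with (P < m * l ∧ m * l ≤ R) ∧ (P < m * l' ∧ m * l' ≤ R),
          ee (θ * (m * l : ℕ)) * (starRingEnd ℂ) (ee (θ * (m * l' : ℕ))) := by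
    intro l l'
    rw [sum_filter]
    apply sum_congr rfl
    intro m _
    simp only [hKdef]
    by_cases h1 : P < m * l ∧ m * l ≤ R
    · by_cases h2 : P < m * l' ∧ m * l' ≤ R
      · simp [h1, h2]
      · have h3 : ¬ ((P < m * l ∧ m * l ≤ R) ∧ (P < m * l' ∧ m * l' ≤ R)) :=
          fun h => h2 h.2
        rw [if_neg h2, if_neg h3]; simp
    · have h3 : ¬ ((P < m * l ∧ m * l ≤ R) ∧ (P < m * l' ∧ m * l' ≤ R)) :=
        fun h => h1 h.1
      rw [if_neg h1, if_neg h3]; simp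
  have hoff : ∀ l l', 0 < l' → l' ≤ l →
      ‖∑ m ∈ A, K m l * (starRingEnd ℂ) (K m l')‖ ≤ mn M (θ * ((l - l' : ℕ) : ℝ)) := by
    intro l l' hl' hll
    have hl : 0 < l := by omega
    rw [hKK]
    have hset : (A.filter fun m => (P < m * l ∧ m * l ≤ R) ∧ (P < m * l' ∧ m * l' ≤ R)) =
        Ioc (max M (max (P / l) (P / l'))) (min (2 * M) (min (R / l) (R / l'))) := by
      ext m
      simp only [mem_filter, mem_Ioc, hA, max_lt_iff, le_min_iff]
      rw [Nat.div_lt_iff_lt_mul hl, Nat.div_lt_iff_lt_mul hl', Nat.le_div_iff_mul_le hl,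
        Nat.le_div_iff_mul_le hl']
      tauto
    rw [hset]
    have hterm : ∀ m ∈ Ioc (max M (max (P / l) (P / l'))) (min (2 * M) (min (R / l) (R / l'))),
        ee (θ * (m * l : ℕ)) * (starRingEnd ℂ) (ee (θ * (m * l' : ℕ))) =
          ee (θ * ((l - l' : ℕ) : ℝ) * m) := by
      intro m _
      rw [ee_conj]
      congr 1
      rw [Nat.cast_sub hll]
      push_cast
      ring
    rw [sum_congr rfl hterm]
    refine hg _ _ _ _ (by linarith) ?_
    have e1 : ((min (2 * M) (min (R / l) (R / l')) : ℕ) : ℝ) ≤ 2 * M := by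
      exact_mod_cast min_le_left _ _
    have e2 : (M : ℝ) ≤ ((max M (max (P / l) (P / l')) : ℕ) : ℝ) := by
      exact_mod_cast le_max_left _ _
    linarith
  have hsymm : ∀ l l', ‖∑ m ∈ A, K m l * (starRingEnd ℂ) (K m l')‖
      = ‖∑ m ∈ A, K m l' * (starRingEnd ℂ) (K m l)‖ := by
    intro l l'
    have : ∑ m ∈ A, K m l' * (starRingEnd ℂ) (K m l)
        = (starRingEnd ℂ) (∑ m ∈ A, K m l * (starRingEnd ℂ) (K m l')) := by
      rw [map_sum]
      apply sum_congr rfl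
      intro m _
      rw [map_mul, Complex.conj_conj]
      ring
    rw [this, Complex.norm_conj]
  have hM0 : (0 : ℝ) ≤ M := by linarith
  have hall : ∀ l ∈ B, ∀ l' ∈ B, ‖∑ m ∈ A, K m l * (starRingEnd ℂ) (K m l')‖ ≤
      mn M (θ * (((l - l') + (l' - l) : ℕ) : ℝ)) := by
    intro l hl l' hl'
    rw [hB, mem_Ioc] at hl hl'
    rcases le_total l' l with h | h
    · have e : (l - l') + (l' - l) = l - l' := by omega
      rw [e]
      exact hoff l l' hl'.1 h
    · have e : (l - l') + (l' - l) = l' - l := by omega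
      rw [e, hsymm]
      exact hoff l' l hl.1 h
  rcases Nat.eq_zero_or_pos L with hL0 | hLpos
  · have hBe : B = ∅ := by rw [hB, hL0]; simp
    rw [hBe]
    simp only [sum_empty, mul_zero]
    positivity
  have hL1 : 1 ≤ L := hLpos
  have hML : (M : ℝ) * L ≤ X := by
    have : M * L ≤ X := (Nat.mul_div_le R M).trans hRX
    exact_mod_cast this
  have hLr : (1 : ℝ) ≤ L := by exact_mod_cast hL1
  have hLX : (L : ℝ) ≤ X := by nlinarith
  have hlogL : 1 + Real.log L ≤ 2 * ℓ := by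
    have : Real.log L ≤ Real.log X := Real.log_le_log (by linarith) hLX
    linarith
  have hlogL0 : 0 ≤ Real.log L := Real.log_nonneg hLr
  set V : ℝ := C * ((L : ℝ) / q + 1) * (M + q * Real.log (2 * q)) with hV
  have hlq : Real.log (2 * q) ≤ ℓ := Real.log_le_log (by linarith) (by linarith)
  have hlq0 : 0 ≤ Real.log (2 * q) := Real.log_nonneg (by linarith)
  have hVs : ∑ d ∈ Ioc 0 L, mn M (θ * d) ≤ V := hs θ M q a L hq ha hθ hMr
  have hβ : ∑ l ∈ B, ∑ l' ∈ B, |beta U l| * |beta U l'| *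
        ‖∑ m ∈ A, K m l * (starRingEnd ℂ) (K m l')‖ ≤ (M + 2 * V) * (L * (2 * ℓ) ^ 3) := by
    calc _ ≤ ∑ l ∈ B, ∑ l' ∈ B, |beta U l| * |beta U l'| *
          mn M (θ * (((l - l') + (l' - l) : ℕ) : ℝ)) := by
          refine sum_le_sum fun l hl => sum_le_sum fun l' hl' => ?_
          exact mul_le_mul_of_nonneg_left (hall l hl l' hl')
            (mul_nonneg (abs_nonneg _) (abs_nonneg _))
      _ ≤ (M + 2 * V) * ∑ l ∈ B, |beta U l| ^ 2 := by
          refine quad_le B (fun l => beta U l)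
            (fun l l' => mn M (θ * (((l - l') + (l' - l) : ℕ) : ℝ)))
            (fun l l' => mn_nonneg _ _ hM0) (fun l l' => ?_) _ (fun l hl => ?_)
          · rw [add_comm (l - l') (l' - l)]
          · have h := sum_diff_le (fun h => mn M (θ * (h : ℝ))) (fun h => mn_nonneg _ _ hM0)
              L l hl
            refine h.trans ?_
            rw [Nat.cast_zero, mul_zero, mn_zero]
            linarith
      _ ≤ (M + 2 * V) * (L * (2 * ℓ) ^ 3) := by
          refine mul_le_mul_of_nonneg_left ?_ (by positivity)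
          calc ∑ l ∈ B, |beta U l| ^ 2 ≤ ∑ l ∈ B, (#l.divisors : ℝ) ^ 2 := by
                refine sum_le_sum fun l _ => ?_
                have h1 := abs_beta_le U l
                have h2 := abs_nonneg (beta U l)
                gcongr
            _ ≤ L * (1 + Real.log L) ^ 3 := sum_card_div_sq L hL1
            _ ≤ L * (2 * ℓ) ^ 3 := by gcongr
  have hfin : (M * ℓ ^ 2) * ((M + 2 * V) * (L * (2 * ℓ) ^ 3)) ≤
      8 * (1 + 4 * C) * X * ℓ ^ 6 * (M + (X : ℝ) / q + (X : ℝ) / M + q) := by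
    have hq0 : (0 : ℝ) < q := by linarith
    have hM0' : (0 : ℝ) < M := by linarith
    have k1 : M + 2 * V ≤ (1 + 4 * C) * ℓ * (M + (X : ℝ) / q + (X : ℝ) / M + q) := by
      have k2 : ((L : ℝ) / q + 1) * (M + q * Real.log (2 * q)) ≤
          ℓ * (M + (X : ℝ) / q + (X : ℝ) / M + q) := by
        have k3 : M + q * Real.log (2 * q) ≤ ℓ * (M + q) := by nlinarith
        have k4 : ((L : ℝ) / q + 1) * (M + q) ≤ M + (X : ℝ) / q + (X : ℝ) / M + q := by
          have k5 : (L : ℝ) / q * M ≤ X / q := by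
            rw [div_mul_eq_mul_div]
            exact div_le_div_of_nonneg_right (by linarith) hq0.le
          have k6 : (L : ℝ) ≤ X / M := by
            rw [le_div_iff₀ hM0']
            linarith
          have k7 : (L : ℝ) / q * q = L := by field_simp
          have k8 : ((L : ℝ) / q + 1) * (M + q) = (L : ℝ) / q * M + (L : ℝ) / q * q + (M + q) := by
            ring
          rw [k8, k7]
          linarith
        calc ((L : ℝ) / q + 1) * (M + q * Real.log (2 * q)) ≤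
            ((L : ℝ) / q + 1) * (ℓ * (M + q)) := by gcongr
          _ = ℓ * (((L : ℝ) / q + 1) * (M + q)) := by ring
          _ ≤ _ := by gcongr
      have k9 : (M : ℝ) ≤ ℓ * (M + (X : ℝ) / q + (X : ℝ) / M + q) := by
        have h1 : (0 : ℝ) ≤ (X : ℝ) / q + (X : ℝ) / M + q := by positivity
        calc (M : ℝ) ≤ M + (X : ℝ) / q + (X : ℝ) / M + q := by linarith
          _ = 1 * (M + (X : ℝ) / q + (X : ℝ) / M + q) := (one_mul _).symm
          _ ≤ _ := mul_le_mul_of_nonneg_right hℓ1 (by positivity)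
      have k10 : V ≤ C * (ℓ * (M + (X : ℝ) / q + (X : ℝ) / M + q)) := by
        rw [hV, mul_assoc]
        exact mul_le_mul_of_nonneg_left k2 hC.le
      have k11 : 0 ≤ C * (ℓ * (M + (X : ℝ) / q + (X : ℝ) / M + q)) := by positivity
      have k13 : (1 + 4 * C) * ℓ * (M + (X : ℝ) / q + (X : ℝ) / M + q) =
          ℓ * (M + (X : ℝ) / q + (X : ℝ) / M + q) +
            4 * (C * (ℓ * (M + (X : ℝ) / q + (X : ℝ) / M + q))) := by ring
      rw [k13]
      linarith
    have k12 : 0 ≤ (1 + 4 * C) * ℓ * (M + (X : ℝ) / q + (X : ℝ) / M + q) := by positivity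
    calc (M * ℓ ^ 2) * ((M + 2 * V) * (L * (2 * ℓ) ^ 3)) = (M * L) * (8 * ℓ ^ 5) * (M + 2 * V) := by
          ring
      _ ≤ X * (8 * ℓ ^ 5) * ((1 + 4 * C) * ℓ * (M + (X : ℝ) / q + (X : ℝ) / M + q)) := by
          have : 0 ≤ M + 2 * V := by positivity
          gcongr
      _ = _ := by ring
  refine le_trans ?_ hfin
  exact mul_le_mul hα hβ (sum_nonneg (fun _ _ => sum_nonneg (fun _ _ => by positivity)))
    (by positivity)

end Pool.Agent.H30.AG
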